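import Pool.Agent.H59.GL.Window

/-!
# Windowed exponential maxima with the sharp cubic constant
-/

open MeasureTheory ProbabilityTheory
open scoped ENNReal

namespace Pool.Agent.H59.GL

open Pool.Agent.H99.NS Pool.Agent.H22.LPP Pool.Agent.H84.GL

theorem sg_pos {q : ℝ} (hq0 : 0 < q) (hq1 : q < 1) : 0 < sg q := by
  unfold sg
  exact div_pos (Real.sqrt_pos.2 hq0) (by linarith)

theorem sqrt_lt_one' {q : ℝ} (hq1 : q < 1) : √q < 1 := by
  rw [Real.sqrt_lt' one_pos]; simpa using hq1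

theorem mu_pos {q : ℝ} (hq0 : 0 < q) (hq1 : q < 1) : 0 < mu q := by
  unfold mu
  exact div_pos (Real.sqrt_pos.2 hq0) (by linarith [sqrt_lt_one' hq1])

theorem cf_pos {q : ℝ} (hq0 : 0 < q) (hq1 : q < 1) : 0 < cf q := by
  unfold cf cc
  have h1 := Real.sqrt_pos.2 hq0
  have h2 := sqrt_lt_one' hq1
  have h3 : 0 < 1 - √q := by linarith
  positivity

theorem pf_ELS (hUTMS : D_UTMS) (hLT : D_LT) (hFUB : T_FUB) (hPRE : T_PRE) : T_ELS := by
  intro q hq0 hq1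
  obtain ⟨x₀, hx₀, H⟩ := below hFUB hPRE hLT q hq0 hq1
  have hs := sg_pos hq0 hq1
  have hm := mu_pos hq0 hq1
  have hc0 := cf_pos hq0 hq1
  refine ⟨sg q / 8, by positivity, fun ε hε => ?_⟩
  set c0 : ℝ := cf q with hc0d
  set s : ℝ := sg q with hsd
  set m : ℝ := mu q with hmd
  obtain ⟨C₁, δ₁, hC₁, hδ₁, U⟩ := hUTMS q (ε / 2) hq0 hq1 (by linarith)
  obtain ⟨η, hη, hη2, hη3⟩ : ∃ η : ℝ, 0 < η ∧ η ≤ 1 / 2 ∧ (c0 + ε / 2) * η ≤ ε / 2 := by
    refine ⟨min (1 / 2) (ε / (2 * (c0 + ε))), by positivity, min_le_left _ _, ?_⟩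
    calc (c0 + ε / 2) * min (1 / 2) (ε / (2 * (c0 + ε)))
        ≤ (c0 + ε) * (ε / (2 * (c0 + ε))) := by
          apply mul_le_mul (by linarith) (min_le_right _ _) (by positivity) (by positivity)
      _ = ε / 2 := by field_simp
  refine ⟨s / (4 * η) + 2 * x₀ + C₁ + 1 + 2 * (c0 + ε), min (min η (δ₁ / 2)) 1, by positivity,
    by positivity, ⌈2 / δ₁⌉₊, ?_⟩
  intro lam hlam hlamδ a w j ha hw hwδ hja hjδ
  have hδη : min (min η (δ₁ / 2)) 1 ≤ η := le_trans (min_le_left _ _) (min_le_left _ _)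
  have hδδ : min (min η (δ₁ / 2)) 1 ≤ δ₁ / 2 := le_trans (min_le_left _ _) (min_le_right _ _)
  have hδ1 : min (min η (δ₁ / 2)) 1 ≤ 1 := min_le_right _ _
  set l : ℝ := (a : ℝ) + 1 with hl
  have hl1 : 1 ≤ l := by rw [hl]; have := Nat.cast_nonneg (α := ℝ) a; linarith
  have hl0 : 0 < l := by linarith
  have hla : 2 / δ₁ ≤ l := by
    have h1 : 2 / δ₁ ≤ (⌈2 / δ₁⌉₊ : ℝ) := Nat.le_ceil _
    have h2 : (⌈2 / δ₁⌉₊ : ℝ) ≤ a := by exact_mod_cast ha
    linarith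
  have hla' : 1 ≤ δ₁ / 2 * l := by
    rw [div_le_iff₀ hδ₁] at hla
    linarith
  set d : ℕ := ⌈η * l⌉₊ with hd
  have hηl : 0 < η * l := by positivity
  have hd1 : 1 ≤ d := Nat.one_le_iff_ne_zero.2 (by
    rw [hd, Ne, Nat.ceil_eq_zero, not_le]; exact hηl)
  have hdl : η * l ≤ d := Nat.le_ceil _
  have hdu : (d : ℝ) < η * l + 1 := Nat.ceil_lt_add_one hηl.le
  have hdl' : (d : ℝ) ≤ l := by
    have : d ≤ a + 1 := by
      rw [hd, Nat.ceil_le]
      push_cast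
      rw [← hl]
      nlinarith
    rw [hl]; exact_mod_cast this
  have hd0 : (0 : ℝ) < d := by exact_mod_cast hd1
  set X : ℝ := (j : ℝ) * w with hX
  have hX0 : 0 ≤ X := by positivity
  have hXa : X ≤ l - 1 := by
    rw [hX, hl]
    have : ((j * w : ℕ) : ℝ) ≤ a := by exact_mod_cast hja
    push_cast at this
    linarith
  -- first step
  have hwd : (w : ℝ) ≤ (d : ℝ) ^ ((3:ℝ)/4) := by
    calc (w : ℝ) ≤ min (min η (δ₁ / 2)) 1 * l ^ ((3:ℝ)/4) := hwδ
      _ ≤ η ^ ((3:ℝ)/4) * l ^ ((3:ℝ)/4) := by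
          apply mul_le_mul_of_nonneg_right _ (by positivity)
          refine le_trans hδη ?_
          calc η = η ^ (1:ℝ) := (Real.rpow_one _).symm
            _ ≤ η ^ ((3:ℝ)/4) :=
              Real.rpow_le_rpow_of_exponent_ge hη (by linarith) (by norm_num)
      _ = (η * l) ^ ((3:ℝ)/4) := (Real.mul_rpow hη.le hl0.le).symm
      _ ≤ (d : ℝ) ^ ((3:ℝ)/4) := Real.rpow_le_rpow hηl.le hdl (by norm_num)
  have step1 := H lam hlam.le w j a a d (j * w) w hw hja le_rfl hd1 (by push_cast; linarith) hwd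
  refine le_trans step1 ?_
  -- second step
  have hv1 : (qs (0, 0) a a).1 - (us (j * w) d).1 = 2 * a + 2 * d + 1 - (j * w : ℕ) := by
    simp only [qs, us]; push_cast; ring
  have hv2 : (qs (0, 0) a a).2 - (us (j * w) d).2 = -(((j * w : ℕ) : ℤ) + 1) := by
    simp only [qs, us]; push_cast; ring
  have hjaZ : ((j * w : ℕ) : ℤ) ≤ a := by exact_mod_cast hja
  have hlen : len (us (j * w) d) (qs (0, 0) a a) = 2 * l + 2 * d - 1 - X := by
    unfold len; rw [hv1, hl, hX]; push_cast; ring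
  have hdsp : dsp (us (j * w) d) (qs (0, 0) a a) = -(X + 1) := by
    unfold dsp; rw [hv2, hX]; push_cast; ring
  have step2 := U lam hlam.le (by linarith) (us (j * w) d) (qs (0, 0) a a) ⟨by
      rw [hv1, hv2, abs_le]; constructor <;> omega, by
      rw [hv1, hv2]; exact ⟨a + d - (j * w : ℕ), by ring⟩⟩ (by
      have : 0 < (qs (0, 0) a a).1 - (us (j * w) d).1 := by rw [hv1]; omega
      omega) (by
      rw [hdsp, hlen, abs_neg, abs_of_nonneg (by linarith)]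
      have h1 : X ≤ δ₁ / 2 * l := le_trans hjδ (mul_le_mul_of_nonneg_right hδδ hl0.le)
      have h2 : δ₁ * l ≤ δ₁ * (2 * l + 2 * d - 1 - X) := by
        apply mul_le_mul_of_nonneg_left _ hδ₁.le
        linarith
      linarith)
  have hpar : par q (us (j * w) d) (qs (0, 0) a a) =
      m * (2 * l + 2 * d - 1 - X) - s / 2 * (X + 1) ^ 2 / (2 * l + 2 * d - 1 - X) := by
    have e1 : (((qs (0, 0) a a).1 - (us (j * w) d).1 : ℤ) : ℝ) = 2 * l + 2 * d - 1 - X := hlen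
    have e2 : (((qs (0, 0) a a).2 - (us (j * w) d).2 : ℤ) : ℝ) = -(X + 1) := hdsp
    unfold par
    rw [e1, e2, neg_sq]
  rw [hpar, hlen] at step2
  refine le_trans (mul_le_mul_right step2 _) ?_
  rw [← ex_add]
  apply ex_mono
  -- the real inequality
  have hLpos : 0 < 2 * l + 2 * d - 1 - X := by linarith
  have h1 : s / 4 * (w : ℝ) ^ 2 / d ≤ s / (4 * η) * ((w : ℝ) ^ 2 / l) := by
    calc s / 4 * (w : ℝ) ^ 2 / d ≤ s / 4 * (w : ℝ) ^ 2 / (η * l) := by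
          apply div_le_div_of_nonneg_left (by positivity) hηl hdl
      _ = s / (4 * η) * ((w : ℝ) ^ 2 / l) := by field_simp
  have h2 : x₀ * (3 * (d : ℝ)) ^ ((1:ℝ)/3) ≤ 2 * x₀ * l ^ ((1:ℝ)/3) := by
    have : (3 * (d : ℝ)) ^ ((1:ℝ)/3) ≤ 2 * l ^ ((1:ℝ)/3) := by
      calc (3 * (d : ℝ)) ^ ((1:ℝ)/3) ≤ (8 * l) ^ ((1:ℝ)/3) :=
            Real.rpow_le_rpow (by positivity) (by linarith) (by norm_num)
        _ = 2 * l ^ ((1:ℝ)/3) := by
            rw [Real.mul_rpow (by norm_num) hl0.le]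
            congr 1
            rw [show (8:ℝ) = 2 ^ (3:ℝ) by norm_num, ← Real.rpow_mul (by norm_num)]
            norm_num
    nlinarith
  have h3 : s / 8 * X ^ 2 / l ≤ s / 2 * (X + 1) ^ 2 / (2 * l + 2 * d - 1 - X) := by
    calc s / 8 * X ^ 2 / l = s / 2 * X ^ 2 / (4 * l) := by field_simp; ring
      _ ≤ s / 2 * (X + 1) ^ 2 / (2 * l + 2 * d - 1 - X) := by
          apply div_le_div₀ (by positivity) _ hLpos (by linarith)
          apply mul_le_mul_of_nonneg_left _ (by positivity)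
          apply pow_le_pow_left₀ hX0 (by linarith)
  have h4 : (c0 + ε / 2) * (2 * l + 2 * d - 1 - X) ≤ (c0 + ε) * (2 * l) + 2 * (c0 + ε) := by
    calc (c0 + ε / 2) * (2 * l + 2 * d - 1 - X)
        ≤ (c0 + ε / 2) * (2 * l * (1 + η) + 2) := by
          apply mul_le_mul_of_nonneg_left _ (by positivity)
          linarith
      _ = 2 * l * (c0 + ε / 2) + 2 * l * ((c0 + ε / 2) * η) + 2 * (c0 + ε / 2) := by ring
      _ ≤ 2 * l * (c0 + ε / 2) + 2 * l * (ε / 2) + 2 * (c0 + ε) := by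
          have := mul_le_mul_of_nonneg_left hη3 (by positivity : 0 ≤ 2 * l)
          linarith
      _ = (c0 + ε) * (2 * l) + 2 * (c0 + ε) := by ring
  have hlam1 : lam ≤ 1 := by linarith
  have hlam3 : lam ^ 3 ≤ 1 := pow_le_one₀ hlam.le hlam1
  have hlam30 : 0 ≤ lam ^ 3 := by positivity
  have h5 : (c0 + ε / 2) * (2 * l + 2 * d - 1 - X) * lam ^ 3 ≤
      (c0 + ε) * (2 * l) * lam ^ 3 + 2 * (c0 + ε) := by
    have g1 := mul_le_mul_of_nonneg_right h4 hlam30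
    have g2 : 2 * (c0 + ε) * lam ^ 3 ≤ 2 * (c0 + ε) * 1 :=
      mul_le_mul_of_nonneg_left hlam3 (by positivity)
    linarith
  have h6 : C₁ * lam ≤ C₁ := by nlinarith
  have g1 := mul_le_mul_of_nonneg_left h1 hlam.le
  have g2 := mul_le_mul_of_nonneg_left h2 hlam.le
  have g3 := mul_le_mul_of_nonneg_left h3 hlam.le
  have hcast : ((j * w : ℕ) : ℝ) = X := by rw [hX]; push_cast; ring
  rw [hcast]
  have hW0 : 0 ≤ (w : ℝ) ^ 2 / l := by positivity
  have hL0 : 0 ≤ l ^ ((1:ℝ)/3) := by positivity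
  have g4 : lam * (s / (4 * η) * ((w : ℝ) ^ 2 / l)) + lam * (2 * x₀ * l ^ ((1:ℝ)/3)) ≤
      (s / (4 * η) + 2 * x₀ + C₁ + 1 + 2 * (c0 + ε)) * lam *
        ((w : ℝ) ^ 2 / l + l ^ ((1:ℝ)/3)) := by
    have k1 : 0 ≤ lam * ((w : ℝ) ^ 2 / l) := by positivity
    have k2 : 0 ≤ lam * l ^ ((1:ℝ)/3) := by positivity
    have k3 : 0 ≤ s / (4 * η) := by positivity
    have k4 : 0 ≤ (2 * x₀ + C₁ + 1 + 2 * (c0 + ε)) * (lam * ((w : ℝ) ^ 2 / l)) := by positivity
    have k5 : 0 ≤ (s / (4 * η) + C₁ + 1 + 2 * (c0 + ε)) * (lam * l ^ ((1:ℝ)/3)) := by positivity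
    linarith
  have e8 : s / 8 * lam * X ^ 2 / l = lam * (s / 8 * X ^ 2 / l) := by ring
  rw [e8]
  have hs4 : 0 ≤ s / (4 * η) := by positivity
  have hfin : lam * (m * (X + 1 - 2 * d)) + lam * (m * (2 * l + 2 * d - 1 - X)) =
      2 * l * m * lam := by ring
  linarith

end Pool.Agent.H59.GL
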