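import Pool.Agent.H59.GL.Window

/-!
# Sharp lower bound for the exponential moment of the passage time
-/

open MeasureTheory ProbabilityTheory
open scoped ENNReal

namespace Pool.Agent.H59.GL

open Pool.Agent.H99.NS Pool.Agent.H22.LPP Pool.Agent.H84.GL

/-- Extension of the passage time by one step and translation to the origin. -/
theorem lint_us_le (q lam : ℝ) (hl : 0 ≤ lam) (a d n : ℕ) (hn : n = a + 1 + d) :
    ∫⁻ ω, ex (lam * T ω (us 0 d) (qs (0, 0) a a)) ∂(PE q) ≤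
      ∫⁻ ω, ex (lam * T ω (0, 0) ((2 * n : ℕ), 0)) ∂(PE q) := by
  have hf : Measurable (fun ω : Env => ex (lam * T ω (0, 0) ((2 * n : ℕ), 0))) :=
    measurable_ex.comp ((measurable_T _ _).const_mul lam)
  rw [← (mp_shiftE q (us 0 d)).lintegral_comp hf]
  refine lintegral_mono fun ω => ?_
  apply ex_mono
  apply mul_le_mul_of_nonneg_left _ hl
  rw [T_shift]
  have e1 : (((0 : ℤ), (0 : ℤ)) : Site) + us 0 d = us 0 d := by
    simp [us]
  have h1 : Reach (us 0 d) (qs (0, 0) a a) := by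
    refine ⟨?_, ?_⟩
    · simp only [us, qs]
      rw [abs_le]
      constructor <;> push_cast <;> omega
    · simp only [us, qs]
      exact ⟨a + d, by push_cast; ring⟩
  have h2 : Reach (qs (0, 0) a a) ((((2 * n : ℕ) : ℤ), (0 : ℤ)) + us 0 d) := by
    refine ⟨?_, ?_⟩
    · simp only [us, qs, Prod.fst_add, Prod.snd_add]
      rw [abs_le]
      constructor <;> push_cast <;> omega
    · simp only [us, qs, Prod.fst_add, Prod.snd_add]
      exact ⟨1, by push_cast; rw [hn]; push_cast; ring⟩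
  have h3 := T_superadd ω h1 h2
  have h4 := T_nonneg ω (qs (0, 0) a a) ((((2 * n : ℕ) : ℤ), (0 : ℤ)) + us 0 d)
  have e1' : T ω ((((0 : ℤ), (0 : ℤ)) : Site) + us 0 d) ((((2 * n : ℕ) : ℤ), (0 : ℤ)) + us 0 d) =
      T ω (us 0 d) ((((2 * n : ℕ) : ℤ), (0 : ℤ)) + us 0 d) := by rw [e1]
  rw [e1']
  linarith

/-- The real inequality at the end. -/
theorem lmg_real {c0 s m x₀ ε η e2 L lam n ℓ D R r : ℝ} (hc0 : 0 < c0) (hs : 0 < s) (hm : 0 < m)
    (hx₀ : 0 < x₀) (hη : 0 < η) (hη2 : 2 * η * c0 ≤ ε / 8) (he2 : 0 < e2)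
    (he21 : e2 ≤ ε / 8) (he22 : 4 * s * e2 ^ 2 ≤ ε / 4 * η) (hL1 : 1 ≤ L) (hLe : 1 ≤ e2 * L)
    (hL : (2 * x₀ + m + 1) ≤ ε / 4 * L ^ 2) (hr : 1 ≤ r) (hn : n = r ^ 3)
    (hlam : 0 < lam) (hlam3 : lam ^ 3 * (2 * n) = L ^ 3) (hlamr : lam * r ≤ L)
    (hℓ : ℓ + D = n) (hℓ0 : 0 ≤ ℓ) (hℓn : (1 - 2 * η) * n ≤ ℓ) (hDn : η * n ≤ D)
    (hR : R = (e2 * L + 1) * (2 * r ^ 2)) (h3D : (3 * D) ^ ((1:ℝ)/3) ≤ 2 * r) :
    lam * m * (2 * n) + (c0 - ε) * L ^ 3 ≤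
      (2 * ℓ * m * lam + (c0 - e2) * (2 * ℓ) * lam ^ 3) -
      (lam * (m * (0 + 1 - 2 * D) + s / 4 * R ^ 2 / D + x₀ * (3 * D) ^ ((1:ℝ)/3)) + 1) := by
  have hn1 : 1 ≤ n := by rw [hn]; exact one_le_pow₀ hr
  have hn0 : 0 < n := by linarith
  have hr0 : 0 < r := by linarith
  have hL0 : 0 < L := by linarith
  have hL3 : 0 < L ^ 3 := by positivity
  have hD0 : 0 < D := by nlinarith
  have hl3 : 0 < lam ^ 3 := by positivity
  have hDn0 : 0 ≤ D := hD0.le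
  -- cubic term
  have a1 : (c0 - ε / 4) * L ^ 3 ≤ (c0 - e2) * (2 * ℓ) * lam ^ 3 := by
    have b1 : (c0 - ε / 4) * n ≤ (c0 - e2) * ℓ := by
      have k1 : c0 * ((1 - 2 * η) * n) ≤ c0 * ℓ := mul_le_mul_of_nonneg_left hℓn hc0.le
      have k2 : e2 * ℓ ≤ ε / 8 * n := by
        apply mul_le_mul he21 (by linarith) hℓ0 (by linarith)
      have k3 : 2 * η * c0 * n ≤ ε / 8 * n := mul_le_mul_of_nonneg_right hη2 hn0.le
      nlinarith
    calc (c0 - ε / 4) * L ^ 3 = 2 * lam ^ 3 * ((c0 - ε / 4) * n) := by rw [← hlam3]; ring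
      _ ≤ 2 * lam ^ 3 * ((c0 - e2) * ℓ) := mul_le_mul_of_nonneg_left b1 (by positivity)
      _ = _ := by ring
  -- window term
  have a2 : lam * (s / 4 * R ^ 2 / D) ≤ ε / 4 * L ^ 3 := by
    have hR0 : 0 ≤ R := by rw [hR]; positivity
    have hRle : R ≤ 4 * (e2 * L) * r ^ 2 := by
      rw [hR]
      have : e2 * L + 1 ≤ 2 * (e2 * L) := by linarith
      nlinarith [mul_le_mul_of_nonneg_right this (by positivity : 0 ≤ 2 * r ^ 2)]
    have hR2 : R ^ 2 ≤ 16 * (e2 * L) ^ 2 * r ^ 4 := by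
      calc R ^ 2 ≤ (4 * (e2 * L) * r ^ 2) ^ 2 := pow_le_pow_left₀ hR0 hRle 2
        _ = _ := by ring
    have k1 : lam * (s / 4 * R ^ 2 / D) ≤ lam * (s / 4 * (16 * (e2 * L) ^ 2 * r ^ 4) / (η * n)) := by
      apply mul_le_mul_of_nonneg_left _ hlam.le
      apply div_le_div₀ (by positivity) _ (by positivity) hDn
      exact mul_le_mul_of_nonneg_left hR2 (by positivity)
    have k2 : lam * (s / 4 * (16 * (e2 * L) ^ 2 * r ^ 4) / (η * n)) =
        (lam * r) * (4 * s * e2 ^ 2 / η) * L ^ 2 := by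
      rw [hn]; field_simp; ring
    have k3 : 4 * s * e2 ^ 2 / η ≤ ε / 4 := by
      rw [div_le_iff₀ hη]; exact he22
    have k4 : (lam * r) * (4 * s * e2 ^ 2 / η) ≤ L * (ε / 4) :=
      mul_le_mul hlamr k3 (by positivity) hL0.le
    calc lam * (s / 4 * R ^ 2 / D) ≤ (lam * r) * (4 * s * e2 ^ 2 / η) * L ^ 2 := by
          rw [← k2]; exact k1
      _ ≤ L * (ε / 4) * L ^ 2 := mul_le_mul_of_nonneg_right k4 (by positivity)
      _ = ε / 4 * L ^ 3 := by ring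
  -- small terms
  have a3 : lam * (x₀ * (3 * D) ^ ((1:ℝ)/3)) ≤ 2 * x₀ * L := by
    calc lam * (x₀ * (3 * D) ^ ((1:ℝ)/3)) ≤ lam * (x₀ * (2 * r)) := by
          apply mul_le_mul_of_nonneg_left _ hlam.le
          exact mul_le_mul_of_nonneg_left h3D hx₀.le
      _ = 2 * x₀ * (lam * r) := by ring
      _ ≤ 2 * x₀ * L := mul_le_mul_of_nonneg_left hlamr (by positivity)
  have a4 : lam * m ≤ m * L := by
    have : lam ≤ L := by
      calc lam = lam * 1 := (mul_one _).symm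
        _ ≤ lam * r := mul_le_mul_of_nonneg_left hr hlam.le
        _ ≤ L := hlamr
    nlinarith
  have a5 : (2 * x₀ + m + 1) * L ≤ ε / 4 * L ^ 3 := by
    calc (2 * x₀ + m + 1) * L ≤ (ε / 4 * L ^ 2) * L := mul_le_mul_of_nonneg_right hL hL0.le
      _ = ε / 4 * L ^ 3 := by ring
  have e1 : 2 * ℓ * m * lam = lam * m * (2 * n) - lam * m * (2 * D) := by
    rw [← hℓ]; ring
  have e2' : lam * (m * (0 + 1 - 2 * D) + s / 4 * R ^ 2 / D + x₀ * (3 * D) ^ ((1:ℝ)/3)) =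
      lam * m - lam * m * (2 * D) + lam * (s / 4 * R ^ 2 / D) +
        lam * (x₀ * (3 * D) ^ ((1:ℝ)/3)) := by ring
  rw [e1, e2']
  have e3 : ε * L ^ 3 - ε / 4 * L ^ 3 - ε / 4 * L ^ 3 - ε / 4 * L ^ 3 = ε / 4 * L ^ 3 := by ring
  have hεL : 0 ≤ ε / 4 * L ^ 3 := by
    have : 0 < ε := by nlinarith
    positivity
  have e4 : (c0 - ε) * L ^ 3 = (c0 - ε / 4) * L ^ 3 - 3 * (ε / 4 * L ^ 3) := by ring
  rw [e4]
  linarith

theorem pf_LMG (hWNS : T_WNS) (hLT : D_LT) (hFUB : T_FUB) (hPRE : T_PRE) : D_LMG := by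
  intro q hq0 hq1 ε hε
  obtain ⟨x₀, hx₀, H⟩ := below hFUB hPRE hLT q hq0 hq1
  have hs : 0 < sg q := by
    unfold sg
    exact div_pos (Real.sqrt_pos.2 hq0) (by linarith)
  have hsq : √q < 1 := by
    rw [Real.sqrt_lt' one_pos]; simpa using hq1
  have hm : 0 < mu q := by
    unfold mu
    exact div_pos (Real.sqrt_pos.2 hq0) (by linarith)
  have hc0 : 0 < cf q := by
    unfold cf cc
    have h1 := Real.sqrt_pos.2 hq0
    have h3 : 0 < 1 - √q := by linarith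
    positivity
  set c0 : ℝ := cf q with hc0d
  set s : ℝ := sg q with hsd
  set m : ℝ := mu q with hmd
  obtain ⟨η, hη, hη1, hη2⟩ : ∃ η : ℝ, 0 < η ∧ η ≤ 1 / 4 ∧ 2 * η * c0 ≤ ε / 8 := by
    refine ⟨min (1 / 4) (ε / (16 * c0)), by positivity, min_le_left _ _, ?_⟩
    calc 2 * min (1 / 4) (ε / (16 * c0)) * c0 ≤ 2 * (ε / (16 * c0)) * c0 := by
          have := min_le_right (1 / 4) (ε / (16 * c0))
          gcongr
      _ = ε / 8 := by field_simp; ring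
  obtain ⟨e2, he2, he21, he22⟩ : ∃ e2 : ℝ, 0 < e2 ∧ e2 ≤ ε / 8 ∧
      4 * s * e2 ^ 2 ≤ ε / 4 * η := by
    refine ⟨min (ε / 8) (√(ε * η / (16 * s))), ?_, min_le_left _ _, ?_⟩
    · exact lt_min (by positivity) (Real.sqrt_pos.2 (by positivity))
    · have h1 : (min (ε / 8) (√(ε * η / (16 * s)))) ^ 2 ≤ ε * η / (16 * s) := by
        calc (min (ε / 8) (√(ε * η / (16 * s)))) ^ 2 ≤ (√(ε * η / (16 * s))) ^ 2 :=
              pow_le_pow_left₀ (by positivity) (min_le_right _ _) 2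
          _ = ε * η / (16 * s) := Real.sq_sqrt (by positivity)
      calc 4 * s * (min (ε / 8) (√(ε * η / (16 * s)))) ^ 2 ≤ 4 * s * (ε * η / (16 * s)) :=
            mul_le_mul_of_nonneg_left h1 (by positivity)
        _ = ε / 4 * η := by field_simp; ring
  obtain ⟨L₀', hL₀', W⟩ := hWNS q hq0 hq1 e2 he2
  refine ⟨max (max L₀' (1 / e2)) (4 * (2 * x₀ + m + 1) / ε + 1),
    le_trans hL₀' (le_trans (le_max_left _ _) (le_max_left _ _)), fun L hL => ?_⟩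
  have hL' : L₀' ≤ L := le_trans (le_trans (le_max_left _ _) (le_max_left _ _)) hL
  have hL1 : 1 ≤ L := le_trans hL₀' hL'
  have hLe : 1 ≤ e2 * L := by
    have : 1 / e2 ≤ L := le_trans (le_trans (le_max_right _ _) (le_max_left _ _)) hL
    rw [div_le_iff₀ he2] at this
    linarith
  have hLL : 2 * x₀ + m + 1 ≤ ε / 4 * L ^ 2 := by
    have h1 : 4 * (2 * x₀ + m + 1) / ε + 1 ≤ L := le_trans (le_max_right _ _) hL
    have h2 : 4 * (2 * x₀ + m + 1) / ε ≤ L := by linarith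
    rw [div_le_iff₀ hε] at h2
    have h3 : L ≤ L ^ 2 := by nlinarith
    have h4 : L * ε ≤ L ^ 2 * ε := mul_le_mul_of_nonneg_right h3 hε.le
    linarith
  have hL0 : 0 < L := by linarith
  obtain ⟨a₀, Wa⟩ := W L hL'
  obtain ⟨n₁, hn₁⟩ := Filter.eventually_atTop.1
    (((tendsto_rpow_atTop (by norm_num : (0:ℝ) < 1 / 12)).comp
      tendsto_natCast_atTop_atTop).eventually_ge_atTop (2 * (e2 * L + 1) / η))
  refine ⟨max n₁ (max (2 * a₀ + 2) ⌈1 / η⌉₊), fun n hn lam hlamd => ?_⟩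
  have hnn₁ : n₁ ≤ n := le_trans (le_max_left _ _) hn
  have hna : 2 * a₀ + 2 ≤ n := le_trans (le_trans (le_max_left _ _) (le_max_right _ _)) hn
  have hnη : 1 / η ≤ (n : ℝ) := by
    have h1 : ⌈1 / η⌉₊ ≤ n := le_trans (le_trans (le_max_right _ _) (le_max_right _ _)) hn
    exact le_trans (Nat.le_ceil _) (by exact_mod_cast h1)
  have hηn : 1 ≤ η * n := by
    rw [div_le_iff₀ hη] at hnη; linarith
  have hn2 : (2 : ℝ) ≤ n := by
    have : 2 ≤ n := by omega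
    exact_mod_cast this
  have hn0 : (0 : ℝ) < n := by linarith
  have hK := hn₁ n hnn₁
  simp only [Function.comp] at hK
  -- `d` and `a`
  set d : ℕ := ⌈η * n⌉₊ with hd
  have hdl : η * n ≤ d := Nat.le_ceil _
  have hdu : (d : ℝ) < η * n + 1 := Nat.ceil_lt_add_one (by positivity)
  have hd1 : 1 ≤ d := by
    have : (1 : ℝ) ≤ d := by linarith
    exact_mod_cast this
  have hd2 : (d : ℝ) ≤ 2 * η * n := by linarith
  have hd3 : (d : ℝ) ≤ n / 2 := by nlinarith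
  have hdn : d + 1 ≤ n := by
    have h1 : (d : ℝ) + 1 ≤ n := by linarith
    exact_mod_cast h1
  obtain ⟨a, ha⟩ : ∃ a : ℕ, n = a + 1 + d := ⟨n - d - 1, by omega⟩
  have haR : (a : ℝ) + 1 + d = n := by rw [ha]; push_cast; ring
  have haa : a₀ ≤ a := by
    have h1 : (a₀ : ℝ) ≤ a := by
      have h2 : (2 * a₀ + 2 : ℝ) ≤ n := by exact_mod_cast hna
      linarith
    exact_mod_cast h1
  set ℓ : ℝ := (a : ℝ) + 1 with hℓ
  have hℓ0 : 0 ≤ ℓ := by positivity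
  -- cube roots
  set r : ℝ := (n : ℝ) ^ ((1:ℝ)/3) with hr
  have hr1 : 1 ≤ r := Real.one_le_rpow (by linarith) (by norm_num)
  have hr0 : 0 < r := by linarith
  have hr3 : (n : ℝ) = r ^ 3 := by
    rw [hr, ← Real.rpow_natCast, ← Real.rpow_mul hn0.le]; norm_num
  set p : ℝ := (((2 * n : ℕ) : ℝ)) ^ ((1:ℝ)/3) with hp
  have h2n : ((2 * n : ℕ) : ℝ) = 2 * n := by push_cast; ring
  have h2n0 : (0 : ℝ) < ((2 * n : ℕ) : ℝ) := by rw [h2n]; linarith
  have hp0 : 0 < p := Real.rpow_pos_of_pos h2n0 _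
  have hp3 : p ^ 3 = 2 * n := by
    rw [hp, ← Real.rpow_natCast, ← Real.rpow_mul h2n0.le]; norm_num
  have hlam' : lam = L / p := by
    rw [hlamd, neg_div, Real.rpow_neg h2n0.le, ← hp, div_eq_mul_inv]
  have hlam : 0 < lam := by rw [hlam']; positivity
  have hlam3 : lam ^ 3 * (2 * n) = L ^ 3 := by
    rw [hlam', div_pow, hp3]; field_simp
  have hrp : r ≤ p := by
    apply Real.rpow_le_rpow hn0.le _ (by norm_num)
    rw [h2n]; linarith
  have hlamr : lam * r ≤ L := by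
    rw [hlam', div_mul_eq_mul_div, div_le_iff₀ hp0]
    exact mul_le_mul_of_nonneg_left hrp hL0.le
  -- the window
  have hub : ℓ ^ ((1:ℝ)/3) ≤ p := by
    apply Real.rpow_le_rpow hℓ0 _ (by norm_num)
    rw [h2n]; have := Nat.cast_nonneg (α := ℝ) d; linarith
  have hlb : p / 2 ≤ ℓ ^ ((1:ℝ)/3) := by
    have e8 : p / 2 = (((2 * n : ℕ) : ℝ) / 8) ^ ((1:ℝ)/3) := by
      rw [Real.div_rpow h2n0.le (by norm_num), ← hp]
      congr 1
      rw [show (8:ℝ) = 2 ^ (3:ℝ) by norm_num, ← Real.rpow_mul (by norm_num)]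
      norm_num
    rw [e8]
    apply Real.rpow_le_rpow (by positivity) _ (by norm_num)
    rw [h2n]; linarith
  obtain ⟨j, w, hw, hw2, hj, hjw, hEL⟩ := Wa a haa lam (by
      rw [hlam']
      calc L / 2 = L / p * (p / 2) := by field_simp
        _ ≤ L / p * ℓ ^ ((1:ℝ)/3) := mul_le_mul_of_nonneg_left hlb (by positivity)) (by
      rw [hlam']
      calc L / p * ℓ ^ ((1:ℝ)/3) ≤ L / p * p := mul_le_mul_of_nonneg_left hub (by positivity)
        _ = L := by field_simp)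
  set R : ℝ := (e2 * L + 1) * (2 * r ^ 2) with hR
  have hr2 : r ^ 2 = (n : ℝ) ^ ((2:ℝ)/3) := by
    rw [hr, ← Real.rpow_natCast, ← Real.rpow_mul hn0.le]; norm_num
  have hw3 : (w : ℝ) ≤ 2 * r ^ 2 := by
    refine le_trans hw2 ?_
    rw [hr2]
    apply mul_le_mul_of_nonneg_left _ (by norm_num)
    apply Real.rpow_le_rpow hℓ0 _ (by norm_num)
    have := Nat.cast_nonneg (α := ℝ) d; linarith
  have hRw : ((j : ℝ) + 1) * w - ((0 : ℕ) : ℝ) ≤ R := by
    rw [Nat.cast_zero, sub_zero, hR]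
    apply mul_le_mul (by linarith) hw3 (by positivity) (by positivity)
  have hRd : R ≤ (d : ℝ) ^ ((3:ℝ)/4) := by
    have k1 : 2 * (e2 * L + 1) ≤ η * (n : ℝ) ^ ((1:ℝ)/12) := by
      have := hK
      rw [div_le_iff₀ hη] at this
      linarith
    have k2 : (n : ℝ) ^ ((1:ℝ)/12) * r ^ 2 = (n : ℝ) ^ ((3:ℝ)/4) := by
      rw [hr2, ← Real.rpow_add hn0]; norm_num
    calc R = 2 * (e2 * L + 1) * r ^ 2 := by rw [hR]; ring
      _ ≤ η * (n : ℝ) ^ ((1:ℝ)/12) * r ^ 2 := mul_le_mul_of_nonneg_right k1 (by positivity)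
      _ = η * (n : ℝ) ^ ((3:ℝ)/4) := by rw [mul_assoc, k2]
      _ ≤ η ^ ((3:ℝ)/4) * (n : ℝ) ^ ((3:ℝ)/4) := by
          apply mul_le_mul_of_nonneg_right _ (by positivity)
          calc η = η ^ (1:ℝ) := (Real.rpow_one _).symm
            _ ≤ η ^ ((3:ℝ)/4) :=
              Real.rpow_le_rpow_of_exponent_ge hη (by linarith) (by norm_num)
      _ = (η * n) ^ ((3:ℝ)/4) := (Real.mul_rpow hη.le hn0.le).symm
      _ ≤ (d : ℝ) ^ ((3:ℝ)/4) := Real.rpow_le_rpow (by positivity) hdl (by norm_num)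
  have step1 := H lam hlam.le w j a a d 0 R hw hjw (Nat.zero_le _) hd1 hRw hRd
  have step2 := lint_us_le q lam hlam.le a d n ha
  have h3D : (3 * (d : ℝ)) ^ ((1:ℝ)/3) ≤ 2 * r := by
    calc (3 * (d : ℝ)) ^ ((1:ℝ)/3) ≤ (8 * n) ^ ((1:ℝ)/3) :=
          Real.rpow_le_rpow (by positivity) (by linarith) (by norm_num)
      _ = 2 * r := by
          rw [Real.mul_rpow (by norm_num) hn0.le, hr]
          congr 1
          rw [show (8:ℝ) = 2 ^ (3:ℝ) by norm_num, ← Real.rpow_mul (by norm_num)]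
          norm_num
  have fin := lmg_real hc0 hs hm hx₀ hη hη2 he2 he21 he22 hL1 hLe hLL hr1 hr3 hlam hlam3 hlamr
    haR hℓ0 (by linarith) hdl hR h3D
  set c : ℝ := lam * (m * (0 + 1 - 2 * d) + s / 4 * R ^ 2 / d + x₀ * (3 * (d : ℝ)) ^ ((1:ℝ)/3))
    + 1 with hc
  rw [Nat.cast_zero] at step1
  have chain : ex (2 * ℓ * m * lam + (c0 - e2) * (2 * ℓ) * lam ^ 3) ≤
      ex c * ∫⁻ ω, ex (lam * T ω (0, 0) ((2 * n : ℕ), 0)) ∂(PE q) :=
    le_trans hEL (le_trans step1 (mul_le_mul_right step2 _))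
  calc ex (lam * m * (2 * n) + (c0 - ε) * L ^ 3)
      ≤ ex ((2 * ℓ * m * lam + (c0 - e2) * (2 * ℓ) * lam ^ 3) - c) := ex_mono fin
    _ = ex (-c) * ex (2 * ℓ * m * lam + (c0 - e2) * (2 * ℓ) * lam ^ 3) := by
        rw [← ex_add]; congr 1; ring
    _ ≤ ex (-c) * (ex c * ∫⁻ ω, ex (lam * T ω (0, 0) ((2 * n : ℕ), 0)) ∂(PE q)) :=
        mul_le_mul_right chain _
    _ = ∫⁻ ω, ex (lam * T ω (0, 0) ((2 * n : ℕ), 0)) ∂(PE q) := by
        rw [← mul_assoc, ex_neg_mul, one_mul]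

end Pool.Agent.H59.GL
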