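import Pool.Agent.H84.GL.Targets3
import Pool.Agent.H22.LPP.Prob

/-!
# Windowed exponential maxima against passage times started below the axis
-/

open MeasureTheory ProbabilityTheory
open scoped ENNReal

namespace Pool.Agent.H59.GL

open Pool.Agent.H99.NS Pool.Agent.H22.LPP Pool.Agent.H84.GL

/-- The window. -/
def win (w j a : ℕ) : Finset ℕ := (Finset.Ico (j * w) ((j + 1) * w)).filter (fun k => k ≤ a)

/-- The term of index `k`. -/
noncomputable def tm (q lam : ℝ) (a b k : ℕ) (W : ℕ × ℕ → ℕ) : ℝ≥0∞ :=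
  ex (lam * ((LB (hs k W) (a - k) b : ℝ) + mu q * (k + 1)))

theorem measurable_tm (q lam : ℝ) (a b k : ℕ) : Measurable (tm q lam a b k) := by
  unfold tm
  refine measurable_ex.comp (Measurable.const_mul (Measurable.add_const ?_ _) lam)
  exact (measurable_nat (fun n : ℕ => (n : ℝ))).comp
    ((measurable_LB (a - k) b).comp (measurable_hs k))

theorem measurable_sup_tm (q lam : ℝ) (a b : ℕ) (S : Finset ℕ) :
    Measurable (fun W => S.sup (fun k => tm q lam a b k W)) := by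
  classical
  induction S using Finset.induction_on with
  | empty => simp
  | insert i s _ ih =>
    simp only [Finset.sup_insert]
    exact (measurable_tm q lam a b i).max ih

/-- The site at the left of the axis. -/
def xs (k : ℕ) : Site := ((k : ℤ) - 1, (k : ℤ) + 1)

theorem window_aux (hFUB : T_FUB) (hPRE : T_PRE) (q lam c : ℝ) (hl : 0 ≤ lam) (w j a b : ℕ)
    (hw : 1 ≤ w) (hja : j * w ≤ a) (u : Site)
    (hu : ∀ k, k ∈ win w j a → Reach u (xs k))
    (hE : ∀ k, k ∈ win w j a → 2⁻¹ ≤ PE q {ω | mu q * (k + 1) - c ≤ T ω u (xs k)}) :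
    EL q lam w j a b ≤
      2 * ∫⁻ ω, ex (lam * (T ω u (qs (0, 0) a b) + c)) ∂(PE q) := by
  classical
  set S := win w j a with hS
  have hne : S.Nonempty := by
    refine ⟨j * w, ?_⟩
    rw [hS, win, Finset.mem_filter, Finset.mem_Ico]
    refine ⟨⟨le_refl _, ?_⟩, hja⟩
    rw [add_mul, one_mul]; omega
  set F : ℕ → (ℕ × ℕ → ℕ) → ℝ≥0∞ := fun k W => tm q lam a b k W with hF
  set G : (ℕ × ℕ → ℕ) → ℝ≥0∞ := fun W => S.sup (fun k => F k W) with hG
  have hGm : Measurable G := measurable_sup_tm q lam a b S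
  have hex : ∀ W : ℕ × ℕ → ℕ, ∃ k, k ∈ S ∧ G W ≤ F k W := by
    intro W
    obtain ⟨k, hk, e⟩ := Finset.exists_mem_eq_sup S hne (fun k => F k W)
    exact ⟨k, hk, le_of_eq e⟩
  set K : (ℕ × ℕ → ℕ) → ℕ := fun W => Nat.find (hex W) with hK
  have hKm : Measurable K := by
    refine measurable_find hex fun k => ?_
    by_cases hk : k ∈ S
    · simp only [hk, true_and]
      exact measurableSet_le hGm (measurable_tm q lam a b k)
    · simp only [hk, false_and]
      exact MeasurableSet.const False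
  have hKs : ∀ W, K W ∈ S ∧ G W ≤ F (K W) W := fun W => Nat.find_spec (hex W)
  -- the sets
  set A : Set Site := {z | z.2 ≤ z.1} with hA
  set B : Set Site := {z | z.1 < z.2} with hB
  have hAB : Disjoint A B := by
    rw [Set.disjoint_left]
    intro z h1 h2
    rw [hA, Set.mem_ofPred_eq] at h1
    rw [hB, Set.mem_ofPred_eq] at h2
    omega
  have harr : ∀ ω ω' : Env, (∀ s ∈ A, ω s = ω' s) → arr ω (0, 0) = arr ω' (0, 0) := by
    intro ω ω' h
    funext p
    unfold arr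
    apply h
    rw [hA, Set.mem_ofPred_eq]
    simp only [qs]
    omega
  set E : ℕ → Set Env := fun k => {ω | mu q * (k + 1) - c ≤ T ω u (xs k)} with hEd
  have hEm : ∀ k, MeasurableSet (E k) := fun k =>
    measurableSet_le measurable_const (measurable_T u (xs k))
  have hEd' : ∀ (k : ℕ) (ω ω' : Env), (∀ s ∈ B, ω s = ω' s) → ω ∈ E k → ω' ∈ E k := by
    intro k ω ω' h hω
    have e : T ω u (xs k) = T ω' u (xs k) := by
      apply T_congr
      rintro x ⟨_, _, h3⟩
      apply h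
      rw [hB, Set.mem_ofPred_eq]
      have h4 := h3.1
      rw [abs_le] at h4
      simp only [xs] at h4
      omega
    rw [hEd, Set.mem_ofPred_eq] at hω ⊢
    rwa [← e]
  have hg : Measurable (fun ω : Env => G (arr ω (0, 0))) := hGm.comp (measurable_arr _)
  have hk : Measurable (fun ω : Env => K (arr ω (0, 0))) := hKm.comp (measurable_arr _)
  have key := hFUB q A B hAB (fun ω => G (arr ω (0, 0))) (fun ω => K (arr ω (0, 0))) E 2⁻¹
    hg hk hEm (fun ω ω' h => by simp only [harr ω ω' h, and_self]) hEd'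
    (fun ω => hE _ (hKs _).1)
  have hpt : ∀ ω : Env, (E (K (arr ω (0, 0)))).indicator (fun _ => G (arr ω (0, 0))) ω ≤
      ex (lam * (T ω u (qs (0, 0) a b) + c)) := by
    intro ω
    by_cases hω : ω ∈ E (K (arr ω (0, 0)))
    · rw [Set.indicator_of_mem hω]
      refine le_trans (hKs _).2 ?_
      simp only [hF]
      unfold tm
      apply ex_mono
      apply mul_le_mul_of_nonneg_left _ hl
      rw [hEd, Set.mem_ofPred_eq] at hω
      have hmem := (hKs (arr ω (0, 0))).1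
      have hka : K (arr ω (0, 0)) ≤ a := by
        rw [hS, win, Finset.mem_filter] at hmem
        exact hmem.2
      have hR := hu _ hmem
      have hp := hPRE ω (0, 0) u (K (arr ω (0, 0))) a b hka (by
        simpa [xs] using hR)
      have hx : T ω u (((0 : ℤ) + ((K (arr ω (0, 0)) : ℕ) : ℤ) - 1),
          ((0 : ℤ) + ((K (arr ω (0, 0)) : ℕ) : ℤ) + 1)) = T ω u (xs (K (arr ω (0, 0)))) := by
        congr 1
        simp [xs]
      simp only at hp
      rw [hx] at hp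
      linarith
    · rw [Set.indicator_of_notMem hω]
      exact zero_le
  have h1 : EL q lam w j a b = ∫⁻ ω, G (arr ω (0, 0)) ∂(PE q) := by
    have : ∫⁻ W, G W ∂(P2 q) = ∫⁻ ω, G (arr ω (0, 0)) ∂(PE q) := by
      rw [← map_arr (0, 0) q, lintegral_map hGm (measurable_arr _)]
    rw [← this]
    rfl
  rw [h1]
  calc ∫⁻ ω, G (arr ω (0, 0)) ∂(PE q)
      = 2 * (2⁻¹ * ∫⁻ ω, G (arr ω (0, 0)) ∂(PE q)) := by
        rw [← mul_assoc, ENNReal.mul_inv_cancel (by norm_num) (by norm_num), one_mul]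
    _ ≤ 2 * ∫⁻ ω, ex (lam * (T ω u (qs (0, 0) a b) + c)) ∂(PE q) := by
        gcongr
        exact le_trans key (lintegral_mono hpt)

/-- Windowed exponential maximum of the bulk passage times, bounded by the exponential moment
of a passage time whose starting point lies below the axis. -/
theorem window (hFUB : T_FUB) (hPRE : T_PRE) (hLT : D_LT) (q : ℝ) (hq0 : 0 < q) (hq1 : q < 1) :
    ∃ x₀ : ℝ, 0 < x₀ ∧ ∀ (lam c : ℝ), 0 ≤ lam → ∀ (w j a b : ℕ), 1 ≤ w → j * w ≤ a →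
    ∀ u : Site, (∀ k, j * w ≤ k → k < (j + 1) * w → k ≤ a →
      Reach u (xs k) ∧ u.1 < (xs k).1 ∧ |dsp u (xs k)| ≤ (len u (xs k)) ^ ((3:ℝ)/4) ∧
      mu q * (k + 1) - c ≤ par q u (xs k) - x₀ * (len u (xs k)) ^ ((1:ℝ)/3)) →
    EL q lam w j a b ≤
      2 * ∫⁻ ω, ex (lam * (T ω u (qs (0, 0) a b) + c)) ∂(PE q) := by
  obtain ⟨A, d, hA, hd, H⟩ := hLT q hq0 hq1
  -- choice of `x₀`
  obtain ⟨x₀, hx₀, hx⟩ : ∃ x₀ : ℝ, 0 < x₀ ∧ A * Real.exp (-(d * x₀ ^ ((3:ℝ)/2))) ≤ 1 / 2 := by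
    set y : ℝ := Real.log (2 * A) / d with hy
    set z : ℝ := max y 1 with hz
    have hz1 : 1 ≤ z := le_max_right _ _
    refine ⟨z ^ ((2:ℝ)/3), Real.rpow_pos_of_pos (by linarith) _, ?_⟩
    have e : (z ^ ((2:ℝ)/3)) ^ ((3:ℝ)/2) = z := by
      rw [← Real.rpow_mul (by linarith)]
      norm_num
    rw [e]
    have h1 : Real.log (2 * A) ≤ d * z := by
      have : y ≤ z := le_max_left _ _
      calc Real.log (2 * A) = d * y := by rw [hy]; field_simp
        _ ≤ d * z := mul_le_mul_of_nonneg_left this hd.le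
    have h2 : 2 * A ≤ Real.exp (d * z) := by
      rw [← Real.log_le_iff_le_exp (by linarith)]
      exact h1
    rw [Real.exp_neg]
    have h3 : 0 < Real.exp (d * z) := Real.exp_pos _
    rw [← div_eq_mul_inv, div_le_iff₀ h3]
    linarith
  refine ⟨x₀, hx₀, fun lam c hl w j a b hw hja u hyp => ?_⟩
  have hyp' : ∀ k, k ∈ win w j a → Reach u (xs k) ∧ u.1 < (xs k).1 ∧
      |dsp u (xs k)| ≤ (len u (xs k)) ^ ((3:ℝ)/4) ∧
      mu q * (k + 1) - c ≤ par q u (xs k) - x₀ * (len u (xs k)) ^ ((1:ℝ)/3) := by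
    intro k hk
    rw [win, Finset.mem_filter, Finset.mem_Ico] at hk
    exact hyp k hk.1.1 hk.1.2 hk.2
  refine window_aux hFUB hPRE q lam c hl w j a b hw hja u (fun k hk => (hyp' k hk).1) ?_
  intro k hk
  obtain ⟨h1, h2, h3, h4⟩ := hyp' k hk
  have h5 := H u (xs k) h1 h2 h3 x₀ hx₀.le
  have hlt : PE q {ω | T ω u (xs k) ≤ par q u (xs k) - x₀ * (len u (xs k)) ^ ((1:ℝ)/3)} ≤ 2⁻¹ := by
    refine le_trans h5 ?_
    refine le_trans (ENNReal.ofReal_le_ofReal hx) ?_
    rw [ENNReal.ofReal_div_of_pos (by norm_num)]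
    simp
  have hc : {ω : Env | T ω u (xs k) ≤ par q u (xs k) - x₀ * (len u (xs k)) ^ ((1:ℝ)/3)}ᶜ ⊆
      {ω | mu q * (k + 1) - c ≤ T ω u (xs k)} := by
    intro ω hω
    rw [Set.mem_compl_iff, Set.mem_ofPred_eq, not_le] at hω
    rw [Set.mem_ofPred_eq]
    linarith
  have hm : MeasurableSet
      {ω : Env | T ω u (xs k) ≤ par q u (xs k) - x₀ * (len u (xs k)) ^ ((1:ℝ)/3)} :=
    measurableSet_le (measurable_T u (xs k)) measurable_const
  calc (2⁻¹ : ℝ≥0∞) = 1 - 2⁻¹ := by rw [ENNReal.one_sub_inv_two]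
    _ ≤ 1 - PE q {ω | T ω u (xs k) ≤ par q u (xs k) - x₀ * (len u (xs k)) ^ ((1:ℝ)/3)} :=
        tsub_le_tsub_left hlt 1
    _ = PE q {ω | T ω u (xs k) ≤ par q u (xs k) - x₀ * (len u (xs k)) ^ ((1:ℝ)/3)}ᶜ := by
        rw [prob_compl_eq_one_sub hm]
    _ ≤ _ := measure_mono hc

/-- The starting point below the axis. -/
def us (i0 d : ℕ) : Site := ((i0 : ℤ) - 2 * d - 1, (i0 : ℤ) + 1)

theorem us_xs_fst (i0 d k : ℕ) : (xs k).1 - (us i0 d).1 = 2 * d + ((k : ℤ) - i0) := by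
  simp only [xs, us]; ring

theorem us_xs_snd (i0 d k : ℕ) : (xs k).2 - (us i0 d).2 = (k : ℤ) - i0 := by
  simp only [xs, us]; ring

/-- Windowed exponential maximum against the exponential moment of the passage time from
`us i0 d`. -/
theorem below (hFUB : T_FUB) (hPRE : T_PRE) (hLT : D_LT) (q : ℝ) (hq0 : 0 < q) (hq1 : q < 1) :
    ∃ x₀ : ℝ, 0 < x₀ ∧ ∀ lam : ℝ, 0 ≤ lam → ∀ (w j a b d i0 : ℕ) (R : ℝ),
      1 ≤ w → j * w ≤ a → i0 ≤ j * w → 1 ≤ d → ((j : ℝ) + 1) * w - i0 ≤ R →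
      R ≤ (d : ℝ) ^ ((3:ℝ)/4) →
    EL q lam w j a b ≤
      ex (lam * (mu q * (i0 + 1 - 2 * d) + sg q / 4 * R ^ 2 / d + x₀ * (3 * (d : ℝ)) ^ ((1:ℝ)/3))
        + 1) * ∫⁻ ω, ex (lam * T ω (us i0 d) (qs (0, 0) a b)) ∂(PE q) := by
  obtain ⟨x₀, hx₀, H⟩ := window hFUB hPRE hLT q hq0 hq1
  refine ⟨x₀, hx₀, fun lam hl w j a b d i0 R hw hja hi hd hR hRd => ?_⟩
  have hsg : 0 < sg q := by
    unfold sg
    exact div_pos (Real.sqrt_pos.2 hq0) (by linarith)
  have hd1 : (1 : ℝ) ≤ d := by exact_mod_cast hd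
  have hRd' : R ≤ d := by
    refine le_trans hRd ?_
    calc (d : ℝ) ^ ((3:ℝ)/4) ≤ (d : ℝ) ^ (1:ℝ) :=
          Real.rpow_le_rpow_of_exponent_le hd1 (by norm_num)
      _ = d := Real.rpow_one _
  set c : ℝ := mu q * (i0 + 1 - 2 * d) + sg q / 4 * R ^ 2 / d + x₀ * (3 * (d : ℝ)) ^ ((1:ℝ)/3)
    with hc
  have key := H lam c hl w j a b hw hja (us i0 d) (by
    intro k hk1 hk2 hk3
    have hik : (i0 : ℤ) ≤ k := by exact_mod_cast le_trans hi hk1
    have hkR : (k : ℝ) - i0 ≤ R := by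
      have h2 : (k : ℝ) ≤ ((j : ℝ) + 1) * w := by exact_mod_cast hk2.le
      linarith
    have hk0 : 0 ≤ (k : ℝ) - i0 := by
      have : (i0 : ℝ) ≤ k := by exact_mod_cast hik
      linarith
    have e1 := us_xs_fst i0 d k
    have e2 := us_xs_snd i0 d k
    have hlen : len (us i0 d) (xs k) = 2 * d + ((k : ℝ) - i0) := by
      unfold len; rw [e1]; push_cast; ring
    have hdsp : dsp (us i0 d) (xs k) = (k : ℝ) - i0 := by
      unfold dsp; rw [e2]; push_cast; ring
    refine ⟨⟨?_, ?_⟩, ?_, ?_, ?_⟩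
    · rw [e1, e2, abs_le]
      constructor <;> omega
    · rw [e1, e2]
      exact ⟨d + (k - i0), by ring⟩
    · have : (0:ℤ) < (xs k).1 - (us i0 d).1 := by rw [e1]; omega
      omega
    · rw [hdsp, hlen, abs_of_nonneg hk0]
      refine le_trans hkR (le_trans hRd ?_)
      apply Real.rpow_le_rpow (by linarith) _ (by norm_num)
      linarith
    · have hpar : par q (us i0 d) (xs k) =
          mu q * (2 * d + ((k : ℝ) - i0)) - sg q / 2 * ((k : ℝ) - i0) ^ 2 /
            (2 * d + ((k : ℝ) - i0)) := by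
        unfold par
        rw [e1, e2]; push_cast; ring
      rw [hpar, hlen]
      have h1 : sg q / 2 * ((k : ℝ) - i0) ^ 2 / (2 * d + ((k : ℝ) - i0)) ≤
          sg q / 4 * R ^ 2 / d := by
        have h3 : ((k : ℝ) - i0) ^ 2 ≤ R ^ 2 := by
          apply pow_le_pow_left₀ hk0 hkR
        calc sg q / 2 * ((k : ℝ) - i0) ^ 2 / (2 * d + ((k : ℝ) - i0))
            ≤ sg q / 2 * R ^ 2 / (2 * d) := by
              apply div_le_div₀ (by positivity) _ (by linarith) (by linarith)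
              exact mul_le_mul_of_nonneg_left h3 (by linarith)
          _ = sg q / 4 * R ^ 2 / d := by
              field_simp; ring
      have h2 : x₀ * (2 * (d : ℝ) + ((k : ℝ) - i0)) ^ ((1:ℝ)/3) ≤
          x₀ * (3 * (d : ℝ)) ^ ((1:ℝ)/3) := by
        apply mul_le_mul_of_nonneg_left _ hx₀.le
        apply Real.rpow_le_rpow (by linarith) _ (by norm_num)
        linarith
      rw [hc]
      nlinarith)
  refine le_trans key ?_
  have hm : Measurable (fun ω : Env => ex (lam * T ω (us i0 d) (qs (0, 0) a b))) :=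
    measurable_ex.comp ((measurable_T _ _).const_mul lam)
  have e3 : ∫⁻ ω, ex (lam * (T ω (us i0 d) (qs (0, 0) a b) + c)) ∂(PE q) =
      ex (lam * c) * ∫⁻ ω, ex (lam * T ω (us i0 d) (qs (0, 0) a b)) ∂(PE q) := by
    rw [← lintegral_const_mul _ hm]
    refine lintegral_congr fun ω => ?_
    rw [← ex_add]
    congr 1; ring
  have h2 : (2 : ℝ≥0∞) ≤ ex 1 := by
    unfold ex
    have : (2 : ℝ) ≤ Real.exp 1 := by have := Real.add_one_le_exp 1; linarith
    calc (2 : ℝ≥0∞) = ENNReal.ofReal 2 := by simp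
      _ ≤ _ := ENNReal.ofReal_le_ofReal this
  rw [e3, ex_add, ← mul_assoc, mul_comm (ex (lam * c)) (ex 1)]
  gcongr

end Pool.Agent.H59.GL
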